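import Pool.Agent.H7.HD.Targets11
import Pool.Agent.H7.HD9.All9
import Pool.Agent.H7.HD.All6

/-!
# Module GDD of MP_e37c09_lc: almost all `γ` are good for `ξ`
(the lemma `bounded` is the one of module LMM)
-/

open Ordinal Cardinal Order Set
open scoped ZFSet

universe u

namespace Pool.Agent.H56.HDA.GDD

open _root_.HD

section
variable {en : Ordinal.{u} → ZFSet.{u}} {Q : Ordinal.{u} → Ordinal.{u} → Prop}
  {t : Ordinal.{u} → Ordinal.{u} → Ordinal.{u}}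

/-- the value of `Q` -/
private def QQ (en : Ordinal.{u} → ZFSet.{u}) (Q : Ordinal.{u} → Ordinal.{u} → Prop)
    (t : Ordinal.{u} → Ordinal.{u} → Ordinal.{u}) (z j a ξ : Ordinal.{u}) : Prop :=
  Q (af en z j) (t a ξ)

/-- `a` is the least ordinal below `ξ` which is not in the set number `j` -/
private def AA (en : Ordinal.{u} → ZFSet.{u}) (Q : Ordinal.{u} → Ordinal.{u} → Prop)
    (t : Ordinal.{u} → Ordinal.{u} → Ordinal.{u}) (z j ξ a : Ordinal.{u}) : Prop :=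
  a < ξ ∧ ¬ QQ en Q t z j a ξ ∧ ∀ a' < a, QQ en Q t z j a' ξ

/-- `b` is an upper bound -/
private def Bd (en : Ordinal.{u} → ZFSet.{u}) (Q : Ordinal.{u} → Ordinal.{u} → Prop)
    (t : Ordinal.{u} → Ordinal.{u} → Ordinal.{u}) (z i ξ b : Ordinal.{u}) : Prop :=
  ∀ j < i, ∀ a, AA en Q t z j ξ a → a ≤ b

private theorem do_QQ (hen : EN en) (hQ : DR Q) (ht : Prf t) (z : Ordinal.{u}) :
    DO fun w => QQ en Q t z (w 0) (w 1) (w 2) := by
  have h1 : DO fun w : ℕ → Ordinal.{u} => ∃ x, ∃ y, x = af en z (w 0) ∧ y = t (w 1) (w 2) ∧ Q x y := by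
    refine DO.ex (R := fun x w => ∃ y, x = af en z (w 0) ∧ y = t (w 1) (w 2) ∧ Q x y) ?_
    refine DO.ex (R := fun y w => w 0 = af en z (w 1) ∧ y = t (w 2) (w 3) ∧ Q (w 0) y) ?_
    refine DO.and ?_ (DO.and ?_ (DO.s2 hQ 1 0))
    · have h2 := (All.fdd en hen).1
      have h3 : DO fun w : ℕ → Ordinal.{u} => w 1 = af en z (w 0) :=
        DO.sub (R := fun c w => w 1 = af en c (w 0)) z
          ((h2.ren fun n => if n = 0 then 1 else if n = 1 then 0 else 2).congr fun w => by simp)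
      exact (h3.ren fun n => if n = 0 then 2 else 1).congr fun w => by simp
    · exact (ht.dfn.ren fun n => if n = 0 then 3 else if n = 1 then 4 else 0).congr
        fun w => by simp
  refine h1.congr fun w => ?_
  constructor
  · intro h
    exact ⟨_, _, rfl, rfl, h⟩
  · rintro ⟨x, y, rfl, rfl, h⟩
    exact h

private theorem do_AA (hen : EN en) (hQ : DR Q) (ht : Prf t) (z : Ordinal.{u}) :
    DO fun w => AA en Q t z (w 0) (w 1) (w 2) := by
  have h1 := do_QQ hen hQ ht z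
  refine (DO.lt 2 1).and (((h1.ren fun n => if n = 0 then 0 else if n = 1 then 2 else 1).congr
    fun w => by simp).not.and ?_)
  refine DO.allLt (R := fun a' w => QQ en Q t z (w 0) a' (w 1)) 2 ?_
  exact (h1.ren fun n => if n = 0 then 1 else if n = 1 then 0 else 2).congr fun w => by simp

private theorem do_Bd (hen : EN en) (hQ : DR Q) (ht : Prf t) (z i : Ordinal.{u}) :
    DO fun w => Bd en Q t z i (w 0) (w 1) := by
  refine DO.allLtc (R := fun j w => ∀ a, AA en Q t z j (w 0) a → a ≤ w 1) i ?_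
  refine DO.all (R := fun a w => AA en Q t z (w 0) (w 1) a → a ≤ w 2) ?_
  refine DO.imp ?_ (DO.le 0 3)
  exact ((do_AA hen hQ ht z).ren fun n => if n = 0 then 1 else if n = 1 then 2 else 0).congr
    fun w => by simp

private theorem AA.unique {z j ξ a b : Ordinal.{u}} (h : AA en Q t z j ξ a)
    (h' : AA en Q t z j ξ b) : a = b := by
  rcases lt_trichotomy a b with h1 | h1 | h1
  · exact absurd (h'.2.2 a h1) h.2.1
  · exact h1
  · exact absurd (h.2.2 b h1) h'.2.1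

private theorem bounded (hen : EN en) (hQ : DR Q) (ht : Prf t) (z i ξ : Ordinal.{u})
    (hξ : RegHOD ξ) (hi : i < ξ) : ∃ b < ξ, Bd en Q t z i ξ b := by
  by_contra hn
  push Not at hn
  apply hξ.2
  have h0 : 0 < ξ := bot_le.trans_lt hi
  have hDR : DR fun j c => AA en Q t z j ξ c ∨ ((¬ ∃ a, AA en Q t z j ξ a) ∧ c = 0) := by
    have h1 := do_AA hen hQ ht z
    refine DO.sub (R := fun x w => AA en Q t z (w 0) x (w 1) ∨
      ((¬ ∃ a, AA en Q t z (w 0) x a) ∧ w 1 = 0)) ξ ?_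
    refine DO.or ?_ (DO.and (DO.not ?_) (DO.eqc 2 0))
    · exact (h1.ren fun n => if n = 0 then 1 else if n = 1 then 0 else 2).congr
        fun w => by simp
    · refine DO.ex (R := fun a w => AA en Q t z (w 1) (w 0) a) ?_
      exact (h1.ren fun n => if n = 0 then 2 else if n = 1 then 1 else 0).congr
        fun w => by simp
  have huni : ∀ j c c' : Ordinal.{u},
      (AA en Q t z j ξ c ∨ ((¬ ∃ a, AA en Q t z j ξ a) ∧ c = 0)) →
      (AA en Q t z j ξ c' ∨ ((¬ ∃ a, AA en Q t z j ξ a) ∧ c' = 0)) → c = c' := by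
    rintro j c c' (h | h) (h' | h')
    · exact h.unique h'
    · exact absurd ⟨c, h⟩ h'.1
    · exact absurd ⟨c', h'⟩ h.1
    · rw [h.2, h'.2]
  refine ⟨i, hi, rs i ξ _, hod_rs hDR i ξ, ⟨fun p hp => ?_, fun x hx => ?_⟩, fun b hb => ?_⟩
  · obtain ⟨a, ha, b, hb, -, rfl⟩ := mem_rs.1 hp
    exact ZFSet.pair_mem_prod.2 ⟨toZFSet_mem_toZFSet_iff.2 ha, toZFSet_mem_toZFSet_iff.2 hb⟩
  · obtain ⟨j, hj, rfl⟩ := mem_toZFSet_iff.1 hx
    obtain ⟨c, hc, hR⟩ : ∃ c < ξ,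
        (AA en Q t z j ξ c ∨ ((¬ ∃ a, AA en Q t z j ξ a) ∧ c = 0)) := by
      by_cases hex : ∃ a, AA en Q t z j ξ a
      · obtain ⟨a, ha⟩ := hex
        exact ⟨a, ha.1, Or.inl ha⟩
      · exact ⟨0, h0, Or.inr ⟨hex, rfl⟩⟩
    refine ⟨c.toZFSet, pair_mem_rs.2 ⟨hj, hc, hR⟩, fun y hy => ?_⟩
    obtain ⟨a', -, b', -, hR', he⟩ := mem_rs.1 hy
    obtain ⟨he1, rfl⟩ := ZFSet.pair_injective he
    have := toZFSet_injective he1
    subst this
    rw [huni _ _ _ hR' hR]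
  · have h1 := hn b hb
    unfold Bd at h1
    push Not at h1
    obtain ⟨j, hj, a, ha, hba⟩ := h1
    exact ⟨j, hj, a, hba.le, pair_mem_rs.2 ⟨hj, ha.1, Or.inl ha⟩⟩

end

theorem X (hCOV : T_COV.{u}) : T_GDD.{u} := by
  classical
  intro K lam Q f t hK hK0 ht hEQ
  obtain ⟨en, hen⟩ := All.en.{u}
  obtain ⟨C, hC, hC'⟩ := hCOV en hen K lam hK hK0 hEQ.lt f hEQ.sj.lt
  refine ⟨C, hC, fun ξ hξC hξK hNE hReg hB => ?_⟩
  have hcof : ℵ₀ < ξ.cof := hNE.1
  have hlim : IsSuccLimit ξ := Ordinal.one_lt_cof_iff.1 (Cardinal.one_lt_aleph0.trans hcof)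
  have hex : ∀ γ, ∃ ζ, ¬ Gdd Q f t γ ξ →
      ζ < γ ∧ (∀ a < γ, Q (f ζ) (t a ξ)) ∧ ∃ a < ξ, ¬ Q (f ζ) (t a ξ) := by
    intro γ
    by_cases h : Gdd Q f t γ ξ
    · exact ⟨0, fun h' => absurd h h'⟩
    · have h1 := h
      unfold Gdd at h1
      push Not at h1
      obtain ⟨ζ, h2, h3, a, h4, h5⟩ := h1
      exact ⟨ζ, fun _ => ⟨h2, h3, a, h4, h5⟩⟩
  choose ζ hζ using hex
  obtain ⟨z, i, hi, hB1⟩ := hC' ξ hξK.le (Or.inl hξC) hNE _ ζ hB
    fun γ hγ _ => (hζ γ hγ).1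
  obtain ⟨b, hb, hb1⟩ := bounded hen hEQ.dr ht z i ξ hReg hi
  have hB2 := pos_diff All.va hcof hB1 (All.vb om ξ (succ b) hlim (hlim.succ_lt hb))
  obtain ⟨γ, -, -, ⟨⟨hγB, j, hj, he⟩, hγb⟩, -⟩ := hB2 univ
    ⟨fun a ha => ⟨succ a, hlim.succ_lt ha, lt_succ a, mem_univ _⟩, fun _ _ _ _ => mem_univ _⟩
  rw [mem_Iio, not_lt] at hγb
  have hbγ : b < γ := (lt_succ b).trans_le hγb
  obtain ⟨-, h5, a0, h6, h7⟩ := hζ γ hγB
  rw [← he] at h5 h7
  obtain ⟨a1, ha1⟩ : ∃ a1, AA en Q t z j ξ a1 := by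
    obtain ⟨m, hm⟩ : ∃ m, m = sInf {a | ¬ Q (af en z j) (t a ξ)} := ⟨_, rfl⟩
    have h8 : ¬ Q (af en z j) (t m ξ) := by
      rw [hm]
      exact csInf_mem (s := {a | ¬ Q (af en z j) (t a ξ)}) ⟨a0, h7⟩
    refine ⟨m, lt_of_le_of_lt ?_ h6, h8, fun a ha => ?_⟩
    · rw [hm]
      exact csInf_le' h7
    · by_contra h9
      rw [hm] at ha
      exact absurd (csInf_le' (s := {a | ¬ Q (af en z j) (t a ξ)}) h9) (not_le.2 ha)
  exact ha1.2.1 (h5 a1 ((hb1 j hj a1 ha1).trans_lt hbγ))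

end Pool.Agent.H56.HDA.GDD
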